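import Pool.Agent.L7h27.SI.Stm

/-!
# Project SJ: the theorem of project SI, with abelian Sylow subgroups for ANY primes (2 and Mersenne primes too)

Every index `i` is of type `A i` (the `p i`-group is abelian, no condition on the prime) or not (as in project SI: `p i` is odd and no
power of two dividing `|V|` is `p_i^a + 1`).  In the count an index of type `A` only needs `gd ≥ |image|` instead of `2 |image|`.
All parts are adaptations of the parts of project SI with the same name (files `Pool/Agent/L7h27/SI/*.lean`, `Pool/Agent/L7h65/SI/*.lean`).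
-/

set_option autoImplicit false

namespace Pool.Agent.L7h27.SJ

open Finset
open Pool.Agent.L7h27.SI

section
variable {V : Type} [AddCommGroup V] {ι : Type} {N : ι → Type} [∀ i, Group (N i)]

/-- for all offsets at least `2` good vectors, at least `|image of N i|`, and at least `2 |image of N i|` if not `A i` -/
def ManyA (A : ι → Prop) (ρ : ∀ i, N i →* AddMonoid.End V) : Prop :=
  ∀ w : ι → V, 2 ≤ gd ρ w ∧ ∀ i, (ρ i).ker.index ≤ gd ρ w ∧ (¬ A i → 2 * (ρ i).ker.index ≤ gd ρ w)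

/-- as `SI.Hyp`, with the type `A i`: `N i` abelian instead of the condition `mers` -/
structure HypA (A : ι → Prop) (p : ι → ℕ) (ρ : ∀ i, N i →* AddMonoid.End V) : Prop where
  finV : Finite V
  finI : Finite ι
  finN : ∀ i, Finite (N i)
  prime : ∀ i, (p i).Prime
  inj : Function.Injective p
  odd : ∀ i, p i ≠ 2
  pg : ∀ i, IsPGroup (p i) (N i)
  cop : ∀ i, ¬ p i ∣ Nat.card V
  ab : ∀ i, A i → ∀ g h : N i, g * h = h * g
  mers : ∀ i, ¬ A i → ∀ a b, 1 ≤ a → 2 ^ b ∣ Nat.card V → 2 ^ b ≠ p i ^ a + 1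
  comm : ∀ i j, i ≠ j → ∀ (g : N i) (h : N j), ρ i g * ρ j h = ρ j h * ρ i g

/-- as `HypA`, but the prime 2 is allowed for an index of type `A` -/
structure HypB (A : ι → Prop) (p : ι → ℕ) (ρ : ∀ i, N i →* AddMonoid.End V) : Prop where
  finV : Finite V
  finI : Finite ι
  finN : ∀ i, Finite (N i)
  prime : ∀ i, (p i).Prime
  inj : Function.Injective p
  odd : ∀ i, ¬ A i → p i ≠ 2
  pg : ∀ i, IsPGroup (p i) (N i)
  cop : ∀ i, ¬ p i ∣ Nat.card V
  ab : ∀ i, A i → ∀ g h : N i, g * h = h * g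
  mers : ∀ i, ¬ A i → ∀ a b, 1 ≤ a → 2 ^ b ∣ Nat.card V → 2 ^ b ≠ p i ^ a + 1
  comm : ∀ i j, i ≠ j → ∀ (g : N i) (h : N j), ρ i g * ρ j h = ρ j h * ρ i g

end

/-- the claim for `|V| = n` -/
def ClaimA (n : ℕ) : Prop := ∀ (V : Type) [AddCommGroup V] (ι : Type) (N : ι → Type) [∀ i, Group (N i)] (A : ι → Prop)
  (p : ι → ℕ) (ρ : ∀ i, N i →* AddMonoid.End V), HypA A p ρ → Nontrivial V → Nat.card V = n → ManyA A ρ

/-- **RED** (reducible case).  Adapt `L7h65/SI/Red.lean`: `gd(V) ≥ gd(V/U) * min gd(U)`, now with the three bounds (`2 ≤`, `|image| ≤`, `2 |image| ≤`). -/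
def S_RED : Prop := ∀ (V : Type) [AddCommGroup V] (ι : Type) (N : ι → Type) [∀ i, Group (N i)] (A : ι → Prop) (p : ι → ℕ)
  (ρ : ∀ i, N i →* AddMonoid.End V), (∀ m < Nat.card V, ClaimA m) → HypA A p ρ → ∀ U : AddSubgroup V, Inv ρ U → U ≠ ⊥ → U ≠ ⊤ →
  ManyA A ρ

/-- **FREE**.  Adapt `L7h27/SI/FREE.lean`; `mers` is only used when just one image is nontrivial, there `gd ≥ |V| - 1 ≥ |image|` is enough
for type `A`. -/
def S_FREE : Prop := ∀ (V : Type) [AddCommGroup V] (ι : Type) (N : ι → Type) [∀ i, Group (N i)] (A : ι → Prop) (p : ι → ℕ)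
  (ρ : ∀ i, N i →* AddMonoid.End V), HypA A p ρ → Nontrivial V → Irr ρ →
  (∀ i (g : N i), ρ i g ≠ 1 → ∀ v : V, ρ i g v = v → v = 0) → ManyA A ρ

/-- **BST**.  Adapt `L7h27/SI/BST.lean` (`mers` and the type are not used, only `HypA` for `Hyp`). -/
def S_BST : Prop := S_DEC → ∀ (V : Type) [AddCommGroup V] (ι : Type) (N : ι → Type) [∀ i, Group (N i)] (A : ι → Prop) (p : ι → ℕ)
  (ρ : ∀ i, N i →* AddMonoid.End V), HypA A p ρ → Nontrivial V → Irr ρ → (∀ i, Function.Injective (ρ i)) →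
  ∀ (i₀ : ι) (z a : N i₀), z ≠ 1 → z ^ (p i₀) = 1 → a ^ (p i₀) = 1 → (∀ h, h * z = z * h) → (∀ j : ℕ, a * z ^ j ≠ 1) →
  (∀ h, ∃ c : ℕ, h * a * h⁻¹ = a * z ^ c) →
  (∀ v, ρ i₀ z v = v → v = 0) ∧ (∃ g₀ : N i₀, g₀ * a * g₀⁻¹ = a * z) ∧ (Subgroup.centralizer {a}).index ≤ p i₀

/-- **BLK** (not `A i₀`).  Adapt `L7h27/SI/Blk.lean`.  New: for `A i` the image of `N i` acts faithfully on `V_0` (the fixed vectors of
`g ∈ N i` are an invariant subgroup), so `gd(V) ≥ (3/4) ∏ a_j ≥ (3/4) a_0 2^(p-1) ≥ |N i|`. -/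
def S_BLK : Prop := ∀ (V : Type) [AddCommGroup V] (ι : Type) (N : ι → Type) [∀ i, Group (N i)] (A : ι → Prop) (p : ι → ℕ)
  (ρ : ∀ i, N i →* AddMonoid.End V), (∀ m < Nat.card V, ClaimA m) → HypA A p ρ → Nontrivial V → Irr ρ →
  (∀ i, Function.Injective (ρ i)) →
  ∀ (i₀ : ι) (z a : N i₀), ¬ A i₀ → z ≠ 1 → z ^ (p i₀) = 1 → a ^ (p i₀) = 1 → (∀ h, h * z = z * h) → (∀ j : ℕ, a * z ^ j ≠ 1) →
  (∀ h, ∃ c : ℕ, h * a * h⁻¹ = a * z ^ c) → ManyA A ρ

/-- **CLM**.  Adapt `L7h27/SI/CLM.lean`: reducible: RED; irreducible and some `N i₀`, not `A i₀`, not cyclic: ZA (`SI.S_ZA`), BLK; otherwise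
all `N i` are abelian (cyclic or type `A`): the fixed vectors of `g ∈ N i` are invariant, so FREE. -/
def S_CLM : Prop := S_RED → S_FREE → S_ZA → S_BLK → ∀ n, ClaimA n

/-- **ONE** (the prime 2).  Hypothesis: all `ClaimA n`.  Proof: by strong induction on `|V|`.  `V` trivial: clear.  `V` reducible: as in RED
(a good vector of `V/U`, a good vector of `U`).  `V` irreducible: the subfamily `{i // p i ≠ 2}` satisfies `HypA`, so it has two good
vectors; an element `g ≠ 1` of the (abelian) group with `p i = 2` (at most one index) that acts nontrivially has no fixed vector `≠ 0` (its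
fixed vectors are invariant), so a good vector different from `- w i` is good for the whole family. -/
def S_ONE : Prop := (∀ n, ClaimA n) → ∀ (V : Type) [AddCommGroup V] (ι : Type) (N : ι → Type) [∀ i, Group (N i)] (A : ι → Prop)
  (p : ι → ℕ) (ρ : ∀ i, N i →* AddMonoid.End V), HypB A p ρ → ∀ w : ι → V, ∃ v, Good ρ w v

/-- the conclusion of ACT -/
def ActC : Prop := ∀ (G : Type) [Group G] [Finite G] (V : Subgroup G) [V.Normal],
  (∀ x ∈ V, ∀ y ∈ V, x * y = y * x) → V ≠ ⊥ →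
  ∀ (ι : Type) [Finite ι] (A : ι → Prop) (p : ι → ℕ), (∀ i, (p i).Prime) → Function.Injective p → (∀ i, ¬ A i → p i ≠ 2) →
  (∀ i, ¬ p i ∣ Nat.card V) → (∀ i, ¬ A i → ∀ a b, 1 ≤ a → 2 ^ b ∣ Nat.card V → 2 ^ b ≠ p i ^ a + 1) →
  ∀ D : ι → Subgroup G, (∀ i, IsPGroup (p i) (D i)) → (∀ i, A i → ∀ g ∈ D i, ∀ h ∈ D i, g * h = h * g) →
  (∀ i j, i ≠ j → ∀ g ∈ D i, ∀ h ∈ D j, ∀ x ∈ V, g * h * x * (g * h)⁻¹ = h * g * x * (h * g)⁻¹) →
  ∀ w : ι → G, (∀ i, w i ∈ V) → ∃ v ∈ V, ∀ i, ∀ g ∈ D i, g * (v * w i) = (v * w i) * g → ∀ x ∈ V, g * x = x * g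

/-- **ACT**.  Adapt `L7h27/SI/ACT.lean` (hypothesis: the conclusion of ONE). -/
def S_ACT : Prop := (∀ (V : Type) [AddCommGroup V] (ι : Type) (N : ι → Type) [∀ i, Group (N i)] (A : ι → Prop)
  (p : ι → ℕ) (ρ : ∀ i, N i →* AddMonoid.End V), HypB A p ρ → ∀ w : ι → V, ∃ v, Good ρ w v) → ActC

/-- **PT**.  Adapt `Pool.Agent.L7h65.SI.s_PT` (`L7h65/SI/Pt.lean`). -/
def S_PT : Prop := ActC → ∀ (G : Type) [Group G] [Finite G] (r : ℕ) (_ : r.Prime) (V : Subgroup G) [V.Normal],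
  (∀ x ∈ V, ∀ y ∈ V, x * y = y * x) → V ≠ ⊥ → IsPGroup r V →
  ∀ (ι : Type) [Finite ι] (A : ι → Prop) (p : ι → ℕ), (∀ i, (p i).Prime) → Function.Injective p → (∀ i, ¬ A i → p i ≠ 2) →
  (∀ i, ¬ A i → ∀ a b, 1 ≤ a → 2 ^ b ∣ Nat.card V → 2 ^ b ≠ p i ^ a + 1) →
  ∀ P : ∀ i, Sylow (p i) G, (∀ i, A i → ∀ g ∈ (P i : Subgroup G), ∀ h ∈ (P i : Subgroup G), g * h = h * g) →
  ∀ x : G, (∀ i, (((P i : Subgroup G) ⊔ V) ⊓ ((P i : Subgroup G) ⊔ V).map (MulAut.conj x).toMonoidHom).Normal) →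
  ∃ v ∈ V, ∀ i, ((P i : Subgroup G) ⊓ (P i : Subgroup G).map (MulAut.conj (v * x)).toMonoidHom).Normal

end Pool.Agent.L7h27.SJ
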