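import Mathlib
import Pool.Agent.L7h27.SJ.Stm
import Pool.Agent.L7h27.SI.Blk
import Pool.Agent.L7h27.SI.BST

/-!
Project SJ: the block case with a flag.
-/

set_option autoImplicit false

namespace Pool.Agent.L7h27.SJ

open Finset
open Pool.Agent.L7h27.SI hiding S_BLK S_BST S_RED S_FREE S_CLM S_ACT
open Pool.Agent.L7h27.SI.BlkAux

/-- **BLK**, from DEC, CNT, BST. -/
theorem s_BLK (hDEC : S_DEC) (hCNT : S_CNT) (hBST : Pool.Agent.L7h27.SJ.S_BST) : Pool.Agent.L7h27.SJ.S_BLK := by
  classical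
  intro V _ ι N _ T p ρ IH H hV hirr hinj i₀ z a hT hz1 hzp hap hzc haz hconj w
  have := H.finV
  have := H.finI
  have := H.finN
  obtain ⟨hz0, ⟨g₀, hg₀⟩, hidx⟩ := hBST hDEC V ι N T p ρ H hV hirr hinj i₀ z a hz1 hzp hap hzc haz hconj
  set q := p i₀ with hq
  have hqp : q.Prime := H.prime i₀
  have hq3 : 3 ≤ q := by
    have h1 := hqp.two_le
    have h2 := H.odd i₀
    rw [← hq] at h2
    omega
  have : NeZero q := ⟨by omega⟩
  have : Fact (1 < q) := ⟨by omega⟩
  set Z := ρ i₀ z with hZ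
  set A := ρ i₀ a with hA
  have hZA : Z * A = A * Z := by rw [hZ, hA, ← map_mul, ← map_mul, ← hzc]
  have hZq : Z ^ q = 1 := by rw [hZ, ← map_pow, hzp, map_one]
  have hAq : A ^ q = 1 := by rw [hA, ← map_pow, hap, map_one]
  have hbij := hDEC V q hqp (H.cop i₀) Z A hZA hZq hAq hz0
  -- all group elements commute with `Z`
  have hcZ : ∀ i (g : N i), ρ i g * Z = Z * ρ i g := by
    intro i g
    by_cases hi : i = i₀
    · subst hi
      rw [hZ, ← map_mul, ← map_mul, hzc]
    · exact H.comm i i₀ hi g z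
  let M : ∀ i, Subgroup (N i) := fun i => comA (ρ i) A
  have hM : ∀ i (g : N i), g ∈ M i ↔ ρ i g * A = A * ρ i g := fun i g => Iff.rfl
  have hMtop : ∀ i, i ≠ i₀ → M i = ⊤ := by
    intro i hi
    rw [Subgroup.eq_top_iff']
    intro g
    exact H.comm i i₀ hi g a
  have hinvj : ∀ (j : ℕ) i, ∀ g ∈ M i, ∀ v ∈ Vj Z A j, ρ i g v ∈ Vj Z A j :=
    fun j i g hg => map_Vj (hcZ i g) hg j
  let ρ' : ∀ (j : ℕ) i, M i →* AddMonoid.End (Vj Z A j) := fun j i => resHom (ρ i) (M i) (Vj Z A j) (hinvj j i)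
  have hρ' : ∀ (j : ℕ) i (g : M i) (v : Vj Z A j), ((ρ' j i g v : Vj Z A j) : V) = ρ i g v := fun j i g v => rfl
  -- `G0` shifts
  have hshift : ∀ (g : N i₀), g * a * g⁻¹ = a * z → ∀ j, ∀ v ∈ Vj Z A j, ρ i₀ g v ∈ Vj Z A (j + 1) := by
    intro g hg j v hv
    rw [mem_Vj] at *
    have h1 : a * z ^ (j + 1) * g = g * (a * z ^ j) := by
      have h2 : g * a = a * z * g := by rw [← hg]; group
      have h3 : ∀ n : ℕ, g * z ^ n = z ^ n * g := fun n => (Commute.pow_right (hzc g) n)
      rw [← mul_assoc, h2, mul_assoc (a * z), h3, pow_succ']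
      simp only [mul_assoc]
    have h4 : A ((Z ^ (j + 1)) (ρ i₀ g v)) = ρ i₀ g (A ((Z ^ j) v)) := by
      have h5 : A * Z ^ (j + 1) * ρ i₀ g = ρ i₀ g * (A * Z ^ j) := by
        rw [hA, hZ, ← map_pow, ← map_pow, ← map_mul, ← map_mul, ← map_mul, ← map_mul, h1]
      exact congrArg (fun t : AddMonoid.End V => t v) h5
    rw [h4, hv]
  have hinvg : ∀ i (g : N i) (v : V), ρ i g⁻¹ (ρ i g v) = v := by
    intro i g v
    have : (ρ i g⁻¹ * ρ i g) v = v := by rw [← map_mul, inv_mul_cancel, map_one]; rfl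
    exact this
  have hinjg : ∀ i (g : N i), Function.Injective (ρ i g) := by
    intro i g x y hxy
    rw [← hinvg i g x, ← hinvg i g y, hxy]
  have hVm : ∀ j k : ℕ, j % q = k % q → Vj Z A j = Vj Z A k := fun j k h => Vj_congr hZq h
  -- all `V_j` are nonzero
  have hne0 : ∃ j : Fin q, Vj Z A j ≠ ⊥ := by
    by_contra hcon
    push Not at hcon
    obtain ⟨x, hx⟩ := exists_ne (0 : V)
    obtain ⟨f, hf⟩ := hbij.2 x
    apply hx
    rw [← hf]
    refine Finset.sum_eq_zero (fun j _ => ?_)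
    exact AddSubgroup.mem_bot.1 (le_of_eq (hcon j) (f j).2)
  have hnek : ∀ (j k : ℕ), Vj Z A j ≠ ⊥ → Vj Z A (j + k) ≠ ⊥ := by
    intro j k hj
    induction k with
    | zero => exact hj
    | succ k ih =>
      intro hcon
      apply ih
      rw [AddSubgroup.eq_bot_iff_forall]
      intro v hv
      have h1 := hshift g₀ hg₀ (j + k) v hv
      rw [show j + k + 1 = j + (k + 1) from by ring, hcon, AddSubgroup.mem_bot] at h1
      exact hinjg i₀ g₀ (by rw [h1, map_zero])
  have hne : ∀ j : ℕ, Vj Z A j ≠ ⊥ := by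
    obtain ⟨j0, hj0⟩ := hne0
    intro j
    have h1 := hnek j0 (j + (q - j0)) hj0
    have h2 : ((j0 : ℕ) + (j + (q - j0))) = j + q := by have := j0.2; omega
    rw [h2] at h1
    rwa [hVm (j + q) j (by simp)] at h1
  have hnt : ∀ j : ℕ, Nontrivial (Vj Z A j) := fun j => (AddSubgroup.nontrivial_iff_ne_bot _).2 (hne j)
  have htop : ∀ j : ℕ, Vj Z A j ≠ ⊤ := by
    intro j hj
    apply haz j
    apply hinj i₀
    rw [map_one]
    ext v
    have h1 : v ∈ Vj Z A j := by rw [hj]; trivial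
    rw [mem_Vj] at h1
    rw [map_mul, map_pow]
    exact h1
  have hcard : ∀ j : ℕ, Nat.card (Vj Z A j) < Nat.card V := by
    intro j
    refine lt_of_le_of_ne (AddSubgroup.card_le_card_addGroup _) ?_
    intro hc
    exact htop j (AddSubgroup.eq_top_of_card_eq _ hc)
  have hHyp : ∀ j : ℕ, HypA T p (ρ' j) := by
    intro j
    refine ⟨inferInstance, inferInstance, fun i => inferInstance, H.prime, H.inj, H.odd, fun i => (H.pg i).to_subgroup _, ?_, ?_, ?_, ?_⟩
    · intro i h
      exact H.cop i (h.trans (AddSubgroup.card_addSubgroup_dvd_card _))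
    · intro i hi g h
      exact Subtype.ext (H.ab i hi g h)
    · intro i hi a' b ha' hb
      exact H.mers i hi a' b ha' (hb.trans (AddSubgroup.card_addSubgroup_dvd_card _))
    · intro i i' hi g h
      ext v
      have h1 := congrArg (fun t : AddMonoid.End V => t (v : V)) (H.comm i i' hi g h)
      exact h1
  have hMany : ∀ j : ℕ, ManyA T (ρ' j) := fun j => IH _ (hcard j) (Vj Z A j) ι (fun i => M i) T p (ρ' j) (hHyp j) (hnt j) rfl
  -- components
  let e : (∀ j : Fin q, Vj Z A j) ≃ V := Equiv.ofBijective _ hbij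
  have he : ∀ f, e f = ∑ j, (f j : V) := fun f => rfl
  let w' : ∀ i, ∀ j : Fin q, Vj Z A j := fun i => e.symm (w i)
  have hw' : ∀ i, w i = ∑ j, (w' i j : V) := by
    intro i
    rw [← he, Equiv.apply_symm_apply]
  let X : Fin q → Type := fun j => {v : Vj Z A j // Good (ρ' j) (fun i => w' i j) v}
  have : ∀ j, Finite (X j) := fun j => inferInstanceAs (Finite {v : Vj Z A j // Good (ρ' j) (fun i => w' i j) v})
  let s : ι → Fin q → ℕ := fun i j => (ρ' j i).ker.index
  have hs : ∀ i j, ¬ T i → 2 * s i j ≤ Nat.card (X j) := fun i j hi => ((hMany j (fun i => w' i j)).2 i).2 hi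
  have hs2 : ∀ i j, s i j ≤ Nat.card (X j) := fun i j => ((hMany j (fun i => w' i j)).2 i).1
  have hs3 : ∀ j, 2 ≤ Nat.card (X j) := fun j => (hMany j (fun i => w' i j)).1
  let O : ∀ j k : Fin q, X j → Set (X k) := fun j k x =>
    {y | ∃ m : M i₀, ((y.1 : V) + (w' i₀ k : V)) = ρ i₀ m (ρ i₀ g₀ ((x.1 : V) + (w' i₀ j : V)))}
  have hO : ∀ j k x, (O j k x).ncard ≤ s i₀ k := by
    intro j k x
    refine orbit_bound (ρ i₀) (M i₀) (Vj Z A k) (hinvj k i₀) (ρ i₀ g₀ ((x.1 : V) + (w' i₀ j : V)))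
      (fun y : X k => (y.1 : V) + (w' i₀ k : V)) ?_ (O j k x) ?_
    · intro y y' hy
      exact Subtype.ext (Subtype.ext (add_right_cancel hy))
    · intro y hy
      exact ⟨AddSubgroup.add_mem _ y.1.2 (w' i₀ k).2, hy⟩
  obtain ⟨hc1, hc2⟩ := hCNT q hq3 X (s i₀) (fun j => hs i₀ j hT) O hO
  set B : Set (∀ j, X j) := {f : ∀ j, X j | ¬ ∀ j k : Fin q, k.val = j.val + 1 → f k ∈ O j k (f j)} with hB
  -- uniqueness of components
  have huniq : ∀ f f' : (∀ j : Fin q, Vj Z A j), ∑ j, (f j : V) = ∑ j, (f' j : V) → f = f' := fun f f' h => hbij.1 h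
  -- a good tuple which is not bad gives a good vector
  have hgood : ∀ f : ∀ j, X j, f ∈ B → Good ρ w (∑ j, ((f j).1 : V)) := by
    intro f hf i g hg
    -- the components of `v + w i`
    let u : ∀ j : Fin q, Vj Z A j := fun j => (f j).1 + w' i j
    have hu : (∑ j, ((f j).1 : V)) + w i = ∑ j, (u j : V) := by
      rw [hw' i, ← Finset.sum_add_distrib]
      rfl
    rw [hu] at hg
    have hgM : g ∈ M i := by
      by_cases hi : i = i₀
      swap
      · rw [hMtop i hi]; trivial
      subst hi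
      by_contra hgM
      apply hf
      -- a power `g'` with `g' a g'⁻¹ = a z`
      obtain ⟨c, hc⟩ := hconj g
      have hcq : ¬ q ∣ c := by
        rintro ⟨d, rfl⟩
        apply hgM
        rw [hM]
        rw [hA, ← map_mul, ← map_mul]
        rw [pow_mul, hzp, one_pow, mul_one] at hc
        rw [mul_inv_eq_iff_eq_mul.1 hc]
      have hcop : Nat.Coprime c q := ((Nat.Prime.coprime_iff_not_dvd hqp).2 hcq).symm
      obtain ⟨n, hn⟩ := Nat.exists_mul_mod_eq_one_of_coprime hcop hqp.one_lt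
      have hpow : ∀ k : ℕ, g ^ k * a * (g ^ k)⁻¹ = a * z ^ (c * k) := by
        intro k
        induction k with
        | zero => simp
        | succ k ih =>
          have h1 : g ^ (k + 1) * a * (g ^ (k + 1))⁻¹ = g * (g ^ k * a * (g ^ k)⁻¹) * g⁻¹ := by
            rw [pow_succ', mul_inv_rev]; simp only [mul_assoc]
          have h3 : z ^ (c * k) * g⁻¹ = g⁻¹ * z ^ (c * k) :=
            ((Commute.pow_right (hzc g : Commute g z) (c * k)).inv_left).eq.symm
          have h2 : g * (a * z ^ (c * k)) * g⁻¹ = (g * a * g⁻¹) * z ^ (c * k) := by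
            calc g * (a * z ^ (c * k)) * g⁻¹ = g * a * (z ^ (c * k) * g⁻¹) := by simp only [mul_assoc]
              _ = g * a * (g⁻¹ * z ^ (c * k)) := by rw [h3]
              _ = (g * a * g⁻¹) * z ^ (c * k) := by simp only [mul_assoc]
          rw [h1, ih, h2, hc, mul_assoc, ← pow_add]
          congr 2
          ring
      have hg' : g ^ n * a * (g ^ n)⁻¹ = a * z := by
        rw [hpow n, ← Nat.div_add_mod (c * n) q, hn.2, pow_add, pow_mul, hzp, one_pow, one_mul, pow_one]
      have hfix : ∀ k : ℕ, ρ i (g ^ k) (∑ j, (u j : V)) = ∑ j, (u j : V) := by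
        intro k
        induction k with
        | zero => rw [pow_zero, map_one]; rfl
        | succ k ih =>
          have h1 : ρ i (g ^ (k + 1)) (∑ j, (u j : V)) = ρ i g (ρ i (g ^ k) (∑ j, (u j : V))) := by
            rw [pow_succ', map_mul]; rfl
          rw [h1, ih, hg]
      -- the shifted components
      have hval : ∀ k : Fin q, (((k - 1 : Fin q) : ℕ) + 1) % q = (k : ℕ) % q := by
        intro k
        have h1 : ((k - 1 + 1 : Fin q) : ℕ) = (((k - 1 : Fin q) : ℕ) + ((1 : Fin q) : ℕ)) % q := Fin.val_add _ _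
        rw [sub_add_cancel] at h1
        rw [h1, Nat.mod_mod, Fin.val_one', Nat.add_mod_mod]
      let t : ∀ k : Fin q, Vj Z A k := fun k => ⟨ρ i (g ^ n) (u (k - 1)), by
        have h1 := hshift (g ^ n) hg' ((k - 1 : Fin q) : ℕ) (u (k - 1)) (u (k - 1)).2
        rwa [hVm _ _ (hval k)] at h1⟩
      have ht : ∑ k, (t k : V) = ∑ j, (u j : V) := by
        have h1 : ∑ k, (t k : V) = ∑ k, ρ i (g ^ n) (u (k - 1)) := rfl
        have h2 : ∑ k : Fin q, ρ i (g ^ n) (u (k - 1) : V) = ∑ k : Fin q, ρ i (g ^ n) (u k : V) :=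
          Equiv.sum_comp (Equiv.subRight (1 : Fin q)) (fun k : Fin q => ρ i (g ^ n) (u k : V))
        rw [h1, h2, ← map_sum, hfix n]
      have htu := huniq t u ht
      intro j k hjk
      have hk1 : k - 1 = j := by
        rw [sub_eq_iff_eq_add]
        apply Fin.ext
        rw [Fin.val_add, Fin.val_one', Nat.add_mod_mod, ← hjk, Nat.mod_eq_of_lt k.2]
      have h1 : ((t k : Vj Z A k) : V) = u k := by rw [htu]
      have h2 : ((t k : Vj Z A k) : V) = ρ i (g ^ n) (u (k - 1)) := rfl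
      have hm : g ^ n * g₀⁻¹ ∈ M i := by
        rw [hM, hA, ← map_mul, ← map_mul]
        congr 1
        have h3 : g₀⁻¹ * a * g₀ = a * z⁻¹ := by
          have h4 : g₀ * (a * z⁻¹) = a * g₀ := by
            have h5 : z⁻¹ * g₀ = g₀ * z⁻¹ := by
              rw [inv_mul_eq_iff_eq_mul, ← mul_assoc, ← hzc, mul_assoc, mul_inv_cancel, mul_one]
            have h6 : g₀ * a = a * z * g₀ := by rw [← hg₀]; group
            calc g₀ * (a * z⁻¹) = (g₀ * a) * z⁻¹ := by group
              _ = a * z * (g₀ * z⁻¹) := by rw [h6]; group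
              _ = a * z * (z⁻¹ * g₀) := by rw [h5]
              _ = a * g₀ := by group
          rw [mul_assoc, ← h4]; group
        have h7 : g ^ n * (a * z⁻¹) = a * g ^ n := by
          have h5 : z⁻¹ * g ^ n = g ^ n * z⁻¹ := by
            rw [inv_mul_eq_iff_eq_mul, ← mul_assoc, ← hzc, mul_assoc, mul_inv_cancel, mul_one]
          have h6 : g ^ n * a = a * z * g ^ n := by rw [← hg']; group
          calc g ^ n * (a * z⁻¹) = (g ^ n * a) * z⁻¹ := by group
            _ = a * z * (g ^ n * z⁻¹) := by rw [h6]; group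
            _ = a * z * (z⁻¹ * g ^ n) := by rw [h5]
            _ = a * g ^ n := by group
        calc g ^ n * g₀⁻¹ * a = g ^ n * (g₀⁻¹ * a * g₀) * g₀⁻¹ := by group
          _ = g ^ n * (a * z⁻¹) * g₀⁻¹ := by rw [h3]
          _ = a * g ^ n * g₀⁻¹ := by rw [h7]
          _ = a * (g ^ n * g₀⁻¹) := by group
      refine ⟨⟨g ^ n * g₀⁻¹, hm⟩, ?_⟩
      have h8 : ρ i (g ^ n * g₀⁻¹) (ρ i g₀ (u j : V)) = ρ i (g ^ n) (u j) := by
        have : (ρ i (g ^ n * g₀⁻¹) * ρ i g₀) (u j : V) = ρ i (g ^ n) (u j) := by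
          rw [← map_mul, inv_mul_cancel_right]
        exact this
      have h9 : ((u k : Vj Z A k) : V) = ρ i (g ^ n) (u j) := by rw [← h1, h2, hk1]
      exact h9.trans h8.symm
    -- `g ∈ M i` preserves the components
    have hcomp : ∀ j, ρ i g (u j) = (u j : V) := by
      have h1 : ∑ j : Fin q, ((⟨ρ i g (u j : V), hinvj (j : ℕ) i g hgM _ (u j).2⟩ : Vj Z A (j : ℕ)) : V) = ∑ j, (u j : V) := by
        simp only
        rw [← map_sum, hg]
      have h2 := huniq (fun j => ⟨ρ i g (u j), hinvj j i g hgM _ (u j).2⟩) u h1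
      intro j
      exact congrArg Subtype.val (congrFun h2 j)
    have htriv : ∀ j : Fin q, ρ' j i ⟨g, hgM⟩ = 1 := by
      intro j
      refine (f j).2 i ⟨g, hgM⟩ ?_
      exact Subtype.ext (hcomp j)
    ext v
    obtain ⟨f', hf'⟩ := hbij.2 v
    have h3 : ∀ j, ρ i g (f' j) = (f' j : V) := by
      intro j
      have h4 := congrArg (fun t : AddMonoid.End (Vj Z A j) => ((t (f' j) : Vj Z A j) : V)) (htriv j)
      exact h4
    rw [← hf']
    simp only [map_sum, h3]
    rfl
  have hfinG : Finite {v : V // Good ρ w v} := inferInstance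
  have hcount : B.ncard ≤ gd ρ w := by
    rw [← Nat.card_coe_set_eq]
    refine Nat.card_le_card_of_injective (fun f : B => (⟨∑ j, ((f.1 j).1 : V), hgood f.1 f.2⟩ : {v : V // Good ρ w v})) ?_
    intro f f' hff
    have h1 : ∑ j, ((f.1 j).1 : V) = ∑ j, ((f'.1 j).1 : V) := congrArg Subtype.val hff
    have h2 := huniq (fun j => (f.1 j).1) (fun j => (f'.1 j).1) h1
    apply Subtype.ext
    funext j
    exact Subtype.ext (congrFun h2 j)
  -- sizes
  have hMcard : ∀ i, Nat.card (M i) ≤ ∏ j, s i j := by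
    intro i
    refine card_le_prod (fun j : Fin q => (ρ' j i).ker) ?_
    intro g hg
    apply Subtype.ext
    apply hinj i
    rw [Subgroup.coe_one, map_one]
    ext v
    obtain ⟨f', hf'⟩ := hbij.2 v
    have h3 : ∀ j, ρ i g (f' j) = (f' j : V) := by
      intro j
      have h4 := congrArg (fun t : AddMonoid.End (Vj Z A j) => ((t (f' j) : Vj Z A j) : V)) (MonoidHom.mem_ker.1 (hg j))
      exact h4
    rw [← hf']
    simp only [map_sum, h3]
    rfl
  have hker : ∀ i, (ρ i).ker.index = Nat.card (N i) := by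
    intro i
    rw [(MonoidHom.ker_eq_bot_iff (ρ i)).2 (hinj i), Subgroup.index_bot]
  have hMcen : (M i₀).index ≤ q := by
    have : M i₀ = Subgroup.centralizer {a} := by
      ext g
      rw [hM, Subgroup.mem_centralizer_singleton_iff, hA, ← map_mul, ← map_mul]
      constructor
      · intro h; exact hinj i₀ h
      · intro h; rw [h]
    rw [this]
    exact hidx
  have hall : ∀ i, ¬ T i → 2 * (ρ i).ker.index ≤ gd ρ w := by
    intro i hTi
    rw [hker]
    refine le_trans ?_ hcount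
    by_cases hi : i = i₀
    · subst hi
      refine le_trans ?_ hc1
      rw [← Subgroup.index_mul_card (M i)]
      calc 2 * ((M i).index * Nat.card (M i)) ≤ 2 * (q * ∏ j, s i j) :=
            Nat.mul_le_mul_left _ (Nat.mul_le_mul hMcen (hMcard i))
        _ = 2 * q * ∏ j, s i j := by ring
    · have h1 : Nat.card (N i) = Nat.card (M i) := by
        rw [hMtop i hi, Nat.card_congr Subgroup.topEquiv.toEquiv]
      have h2 : ∏ j, (2 * s i j) ≤ ∏ j, Nat.card (X j) := Finset.prod_le_prod' (fun j _ => hs i j hTi)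
      rw [Finset.prod_mul_distrib, Finset.prod_const, Finset.card_univ, Fintype.card_fin] at h2
      have h3 : 2 ^ 3 ≤ 2 ^ q := Nat.pow_le_pow_right (by norm_num) hq3
      have h4 := hMcard i
      have h5 : 8 * ∏ j, s i j ≤ 2 ^ q * ∏ j, s i j := Nat.mul_le_mul_right _ h3
      rw [h1]
      omega
  have hall2 : ∀ i, T i → (ρ i).ker.index ≤ gd ρ w := by
    intro i hTi
    rw [hker]
    refine le_trans ?_ hcount
    have hi : i ≠ i₀ := fun h => hT (h ▸ hTi)
    have h1 : Nat.card (N i) = Nat.card (M i) := by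
      rw [hMtop i hi, Nat.card_congr Subgroup.topEquiv.toEquiv]
    have hk : (ρ' (((0 : Fin q) : Fin q) : ℕ) i).ker = ⊥ := by
      rw [Subgroup.eq_bot_iff_forall]
      intro g hg
      have h3 : ∀ v ∈ Vj Z A (((0 : Fin q) : Fin q) : ℕ), ρ i g v = v := by
        intro v hv
        have h4 := congrArg (fun t : AddMonoid.End (Vj Z A (((0 : Fin q) : Fin q) : ℕ)) =>
          ((t ⟨v, hv⟩ : Vj Z A (((0 : Fin q) : Fin q) : ℕ)) : V)) (MonoidHom.mem_ker.1 hg)
        exact h4
      by_contra hg1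
      have h5 : ρ i (g : N i) ≠ 1 := by
        intro h6
        apply hg1
        apply Subtype.ext
        apply hinj i
        rw [h6, Subgroup.coe_one, map_one]
      have := hnt (((0 : Fin q) : Fin q) : ℕ)
      obtain ⟨v, hv⟩ := exists_ne (0 : Vj Z A (((0 : Fin q) : Fin q) : ℕ))
      have h7 : (v : V) = 0 := by
        refine Pool.Agent.L7h27.SI.BST.fixed_inv ρ hirr (ρ i (g : N i)) ?_ h5 (v : V) (h3 v v.2)
        intro i' g'
        by_cases hii : i' = i
        · subst hii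
          rw [← map_mul, ← map_mul, H.ab i' hTi]
        · exact (H.comm i' i hii g' g).symm
      exact hv (Subtype.ext h7)
    have hs0 : s i (0 : Fin q) = Nat.card (M i) := by
      have : s i (0 : Fin q) = (ρ' (((0 : Fin q) : Fin q) : ℕ) i).ker.index := rfl
      rw [this, hk, Subgroup.index_bot]
    have h2 : Nat.card (X 0) * ∏ j ∈ univ.erase (0 : Fin q), Nat.card (X j) = ∏ j, Nat.card (X j) :=
      Finset.mul_prod_erase univ (fun j => Nat.card (X j)) (Finset.mem_univ (0 : Fin q))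
    have h3 : 2 ^ (q - 1) ≤ ∏ j ∈ univ.erase (0 : Fin q), Nat.card (X j) := by
      have h4 : ∏ j ∈ univ.erase (0 : Fin q), 2 ≤ ∏ j ∈ univ.erase (0 : Fin q), Nat.card (X j) :=
        Finset.prod_le_prod' (fun j _ => hs3 j)
      rwa [Finset.prod_const, Finset.card_erase_of_mem (Finset.mem_univ _), Finset.card_univ, Fintype.card_fin] at h4
    have h4 : 2 ^ 2 ≤ 2 ^ (q - 1) := Nat.pow_le_pow_right (by norm_num) (by omega)
    have h5 := hs2 i 0
    rw [hs0] at h5
    have h6 : Nat.card (M i) * 4 ≤ ∏ j, Nat.card (X j) := by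
      rw [← h2]
      exact Nat.mul_le_mul h5 (by omega)
    rw [h1]
    omega
  have h1 := hall i₀ hT
  have h2 : (ρ i₀).ker.index ≠ 0 := by rw [hker]; exact Nat.card_pos.ne'
  refine ⟨by omega, fun i => ⟨?_, hall i⟩⟩
  by_cases hTi : T i
  · exact hall2 i hTi
  · have := hall i hTi
    omega

end Pool.Agent.L7h27.SJ
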