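import Mathlib
import Pool.Agent.L7h27.SJ.Stm
import Pool.Agent.L7h27.SI.Gen2

/-!
# Project SJ: the reduction modulo a solvable normal subgroup, with abelian Sylow subgroups for any prime
-/

set_option autoImplicit false

namespace Pool.Agent.L7h27.SJ

open Finset
open Pool.Agent.L7h27.SI hiding S_BLK S_BST S_RED S_FREE S_CLM S_ACT

/-- **Reduction modulo a solvable normal subgroup.** -/
theorem gen3 (hACT : ActC) (hPT : S_PT) (n : ℕ) : ∀ (G : Type) [Group G] [Finite G], Nat.card G = n → ∀ (R : Subgroup G) [R.Normal],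
    Group.IsSolvable R → ∀ (ι : Type) [Finite ι] (T : ι → Prop) (p : ι → ℕ), (∀ i, (p i).Prime) → Function.Injective p →
    (∀ i, ¬ T i → p i ≠ 2) → (∀ i, ¬ T i → ∀ a b, 1 ≤ a → 2 ^ b ∣ Nat.card R → 2 ^ b ≠ p i ^ a + 1) → ∀ P : ∀ i, Sylow (p i) G,
    (∀ i, T i → ∀ g ∈ (P i : Subgroup G), ∀ h ∈ (P i : Subgroup G), g * h = h * g) →
    ∀ y : G, (∀ i, (((P i : Subgroup G) ⊔ R) ⊓ ((P i : Subgroup G) ⊔ R).map (MulAut.conj y).toMonoidHom).Normal) →
    ∃ v ∈ R, ∀ i, ((P i : Subgroup G) ⊓ (P i : Subgroup G).map (MulAut.conj (v * y)).toMonoidHom).Normal := by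
  induction n using Nat.strong_induction_on with
  | _ n ih =>
    intro G _ _ hn R _ hR ι _ T p hp hinj h2 hmers P hab y hy
    by_cases hbot : R = ⊥
    · refine ⟨1, one_mem _, fun i => ?_⟩
      have := hy i
      rwa [hbot, sup_bot_eq, ← one_mul y] at this
    obtain ⟨r, hr, V, hVn, hVR, hVc, hVne, hVp⟩ := GenAux.exists_in G R hR hbot
    have hπ : Function.Surjective (QuotientGroup.mk' V) := QuotientGroup.mk'_surjective V
    have hk : (QuotientGroup.mk' V).ker = V := QuotientGroup.ker_mk' V
    have hcard : Nat.card (G ⧸ V) < n := by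
      have h1 := V.card_eq_card_quotient_mul_card_subgroup
      have h2 : 1 < Nat.card V := by
        have h3 : Nat.card V ≠ 1 := fun h => hVne (Subgroup.card_eq_one.1 h)
        have h4 : 0 < Nat.card V := Nat.card_pos
        omega
      have h5 : 0 < Nat.card (G ⧸ V) := Nat.card_pos
      rw [← hn, h1]
      exact lt_mul_of_one_lt_right h5 h2
    have hfact : ∀ i, Fact (p i).Prime := fun i => ⟨hp i⟩
    have hRn : (R.map (QuotientGroup.mk' V)).Normal := Subgroup.Normal.map inferInstance _ hπ
    have hsurj := (QuotientGroup.mk' V).subgroupMap_surjective R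
    have hRs : Group.IsSolvable (R.map (QuotientGroup.mk' V)) := Group.isSolvable_of_surjective hsurj
    have hRd : Nat.card (R.map (QuotientGroup.mk' V)) ∣ Nat.card R := Subgroup.card_dvd_of_surjective _ hsurj
    -- conjugates of subgroups containing `V`
    have hconj : ∀ (x : G) (A : Subgroup G), V ≤ A → V ≤ A.map (MulAut.conj x).toMonoidHom := by
      intro x A hVA v hv
      rw [Pool.Agent.L7h65.SI.mc]
      apply hVA
      have := hVn.conj_mem v hv x⁻¹
      rwa [inv_inv] at this
    have hcomp : ∀ (x : G) (A : Subgroup G), (A.map (QuotientGroup.mk' V)).map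
        (MulAut.conj (QuotientGroup.mk' V x)).toMonoidHom =
        (A.map (MulAut.conj x).toMonoidHom).map (QuotientGroup.mk' V) := by
      intro x A
      rw [Subgroup.map_map, Subgroup.map_map]
      rfl
    have e3 : ∀ (x : G) (A : Subgroup G), V ≤ A →
        A.map (QuotientGroup.mk' V) ⊓ (A.map (MulAut.conj x).toMonoidHom).map (QuotientGroup.mk' V) =
        (A ⊓ A.map (MulAut.conj x).toMonoidHom).map (QuotientGroup.mk' V) := by
      intro x A hVA
      apply Subgroup.comap_injective hπ
      rw [Subgroup.comap_inf, Subgroup.comap_map_eq_self (by rw [hk]; exact hVA),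
        Subgroup.comap_map_eq_self (by rw [hk]; exact hconj x A hVA),
        Subgroup.comap_map_eq_self (by rw [hk]; exact le_inf hVA (hconj x A hVA))]
    obtain ⟨vb, hvb, key⟩ := ih _ hcard (G ⧸ V) rfl (R.map (QuotientGroup.mk' V)) hRs ι T p hp hinj h2
      (fun i hi a b ha hb => hmers i hi a b ha (hb.trans hRd))
      (fun i => (P i).mapSurjective hπ) (by
        rintro i hi _ ⟨g, hg, rfl⟩ _ ⟨h, hh, rfl⟩
        rw [← map_mul, ← map_mul, hab i hi g hg h hh]) (QuotientGroup.mk' V y) (by
        intro i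
        have hVA : V ≤ (P i : Subgroup G) ⊔ R := hVR.trans le_sup_right
        have e1 : (((P i).mapSurjective hπ : Sylow (p i) (G ⧸ V)) : Subgroup (G ⧸ V)) ⊔ R.map (QuotientGroup.mk' V) =
            ((P i : Subgroup G) ⊔ R).map (QuotientGroup.mk' V) := by
          rw [Subgroup.map_sup]
          rfl
        rw [e1, hcomp, e3 y _ hVA]
        exact Subgroup.Normal.map (hy i) _ hπ)
    obtain ⟨v, hv, rfl⟩ := hvb
    obtain ⟨v', hv', hfin⟩ := hPT hACT G r hr V hVc hVne hVp ι T p hp hinj h2
      (fun i hi a b ha hb => hmers i hi a b ha (hb.trans (Subgroup.card_dvd_of_le hVR))) P hab (v * y) (by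
        intro i
        have h1 := key i
        rw [← map_mul] at h1
        have h2 : (((P i : Subgroup G) ⊔ V) ⊓ ((P i : Subgroup G) ⊔ V).map (MulAut.conj (v * y)).toMonoidHom) =
            ((((P i).mapSurjective hπ : Sylow (p i) (G ⧸ V)) : Subgroup (G ⧸ V)) ⊓
              (((P i).mapSurjective hπ : Sylow (p i) (G ⧸ V)) : Subgroup (G ⧸ V)).map
              (MulAut.conj (QuotientGroup.mk' V (v * y))).toMonoidHom).comap (QuotientGroup.mk' V) := by
          have h3 : (((P i).mapSurjective hπ : Sylow (p i) (G ⧸ V)) : Subgroup (G ⧸ V)) =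
              ((P i : Subgroup G) ⊔ V).map (QuotientGroup.mk' V) := by
            rw [Subgroup.map_sup]
            have h4 : V.map (QuotientGroup.mk' V) = ⊥ := by
              rw [Subgroup.map_eq_bot_iff, hk]
            rw [h4, sup_bot_eq]
            rfl
          rw [h3, hcomp, e3 (v * y) _ le_sup_right, Subgroup.comap_map_eq_self]
          rw [hk]
          exact le_inf le_sup_right (hconj _ _ le_sup_right)
        rw [h2]
        exact Subgroup.Normal.comap h1 _)
    refine ⟨v' * v, mul_mem (hVR hv') hv, fun i => ?_⟩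
    rw [mul_assoc]
    exact hfin i

end Pool.Agent.L7h27.SJ
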