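import Mathlib
import Pool.Agent.L7h27.SJ.Gen
import Pool.Agent.L7h27.SJ.Blk
import Pool.Agent.L7h37.SJ.Act
import Pool.Agent.L7h73.SJ.One
import Pool.Agent.L7h84.SJ.Bst
import Pool.Agent.L7h84.SJ.Pt
import Pool.Agent.L7h87.SJ.Red
import Pool.Agent.L7h99.SJ.CLM
import Pool.Agent.L7h99.SJ.FREE
import Pool.Agent.L7h45.SI.Za

/-!
# Project SJ: assembly
-/

set_option autoImplicit false

namespace Pool.Agent.L7h27.SJ

open Finset
open Pool.Agent.L7h27.SI hiding S_BLK S_BST S_RED S_FREE S_CLM S_ACT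

theorem claimA : ∀ n, ClaimA n :=
  Pool.Agent.L7h99.SJ.s_CLM Pool.Agent.L7h87.SJ.s_RED Pool.Agent.L7h99.SJ.s_FREE Pool.Agent.L7h45.SI.s_ZA
    (s_BLK s_DEC s_CNT Pool.Agent.L7h84.SJ.s_BST)

theorem actC : ActC := Pool.Agent.L7h37.SJ.s_ACT (Pool.Agent.L7h73.SJ.s_ONE claimA)

/-- **Reduction modulo a solvable normal subgroup.** -/
theorem all (n : ℕ) : ∀ (G : Type) [Group G] [Finite G], Nat.card G = n → ∀ (R : Subgroup G) [R.Normal],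
    Group.IsSolvable R → ∀ (ι : Type) [Finite ι] (T : ι → Prop) (p : ι → ℕ), (∀ i, (p i).Prime) → Function.Injective p →
    (∀ i, ¬ T i → p i ≠ 2) → (∀ i, ¬ T i → ∀ a b, 1 ≤ a → 2 ^ b ∣ Nat.card R → 2 ^ b ≠ p i ^ a + 1) → ∀ P : ∀ i, Sylow (p i) G,
    (∀ i, T i → ∀ g ∈ (P i : Subgroup G), ∀ h ∈ (P i : Subgroup G), g * h = h * g) →
    ∀ y : G, (∀ i, (((P i : Subgroup G) ⊔ R) ⊓ ((P i : Subgroup G) ⊔ R).map (MulAut.conj y).toMonoidHom).Normal) →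
    ∃ v ∈ R, ∀ i, ((P i : Subgroup G) ⊓ (P i : Subgroup G).map (MulAut.conj (v * y)).toMonoidHom).Normal :=
  gen3 actC Pool.Agent.L7h84.SJ.s_PT n

end Pool.Agent.L7h27.SJ
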